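import Pool.Agent.Y515.NS6.Energy
import Pool.Agent.Y48.EP.BlowA5

/-!
Assembly of `S_BLOW6` (Navier-Stokes with an additional skew-adjoint linear term of order 2;
plan of helper5; job 3258).
-/

open Set Filter Topology MeasureTheory

set_option autoImplicit false
set_option linter.all false

namespace Pool.Agent.Y515.NS6

open Pool.Agent.Y5 Pool.Agent.Y5.D Pool.Agent.Y5.E Pool.Agent.Y5.F Pool.Agent.Y5.S2
open Pool.Agent.Y5.E.Bl
open Pool.Agent.Y6.N (lin Dm)
open Pool.Agent.Y8.EP (Sq5 Grow5)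

section groups

variable {J : Type} (g : J → ℕ) (z : Ix J → ℝ → ℝ) (t : ℝ)

/-- the bound of the weighted norm from a bound of the tail energies -/
theorem nk_le6 {κ μ lam Λ M : ℝ} {L C ℓ : ℕ → ℝ} {B : ℕ → ℕ → ℝ}
    (hS : Sq5 κ μ lam Λ M L C ℓ B)
    (hs : Summable fun a => z a t ^ 2) {E : ℝ} (h1 : ∑' a, z a t ^ 2 ≤ E) (n₀ : ℕ) (K₀ : ℝ)
    (hY : ∀ k : ℕ, √(Yt (fun n => z (Sum.inl n)) (wz g z) (n₀ + k) t) ≤
      K₀ * Real.exp (-(μ / 100 * k))) :
    nk (rI L g) 1 (fun a => z a t) ≤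
      ∑ n ∈ Finset.range n₀, L n ^ 2 * E + 2 * (L n₀ ^ 2 * K₀ ^ 2) := by
  classical
  set e : ℕ → ℝ := fun n => z (Sum.inl n) t ^ 2 + wz g z n t ^ 2 with he
  have hes : Summable e := summ_groups g z t hs
  have he0 : ∀ n, 0 ≤ e n := fun n => by positivity
  have hY0 : ∀ m, 0 ≤ Yt (fun n => z (Sum.inl n)) (wz g z) m t := fun m =>
    tsum_nonneg fun k => by positivity
  have heY : ∀ m, e m ≤ Yt (fun n => z (Sum.inl n)) (wz g z) m t := by
    intro m
    have h2 : Summable fun k => e (m + k) := hes.comp_injective (add_right_injective m)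
    have h3 := h2.le_tsum 0 (fun k _ => he0 _)
    simpa [Yt] using h3
  have hlam : (10 : ℝ) ^ 30 ≤ lam := Pool.Agent.Y48.EP.lam_big hS
  have hlam0 : (0 : ℝ) < lam := lt_of_lt_of_le (by norm_num) hlam
  -- each group has norm at most one
  have he1 : ∀ n, e n ≤ E := by
    intro n
    have hi : Summable fun a : Ix J => if gr g a = n then z a t ^ 2 else 0 := by
      refine Summable.of_nonneg_of_le (fun j => ?_) (fun j => ?_) hs
      · split_ifs
        · positivity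
        · exact le_rfl
      · split_ifs
        · exact le_rfl
        · positivity
    have h2 : HasSum ((fun a : Ix J => if gr g a = n then z a t ^ 2 else 0) ∘ Sum.inl)
        (z (Sum.inl n) t ^ 2) := by
      have h3 := hasSum_single
        (f := (fun a : Ix J => if gr g a = n then z a t ^ 2 else 0) ∘ Sum.inl)
        n (fun m hm => if_neg (fun h => hm h))
      simpa [gr] using h3
    have h3 : HasSum ((fun a : Ix J => if gr g a = n then z a t ^ 2 else 0) ∘ Sum.inr)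
        (∑' j : J, if g j = n then z (Sum.inr j) t ^ 2 else 0) :=
      (summ_ite g z t hs n).hasSum
    have h4 : e n = ∑' a : Ix J, if gr g a = n then z a t ^ 2 else 0 := by
      rw [he]
      simp only [wz_sq]
      exact (h2.sum h3).tsum_eq.symm
    rw [h4]
    refine le_trans (hi.tsum_le_tsum (fun a => ?_) hs) h1
    split_ifs
    · exact le_rfl
    · positivity
  -- the geometric series
  have hq : lam ^ 2 * Real.exp (-(μ / 50)) ≤ 1 / 2 := Pool.Agent.Y48.EP.q_le hS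
  set q : ℝ := lam ^ 2 * Real.exp (-(μ / 50)) with hqd
  have hq0 : 0 ≤ q := by positivity
  have hgrp : ∀ k : ℕ, L (n₀ + k) ^ 2 * e (n₀ + k) ≤ L n₀ ^ 2 * K₀ ^ 2 * (1 / 2) ^ k := by
    intro k
    have h2 := hY k
    have h3 := Real.sqrt_nonneg (Yt (fun n => z (Sum.inl n)) (wz g z) (n₀ + k) t)
    have h4 : Yt (fun n => z (Sum.inl n)) (wz g z) (n₀ + k) t ≤
        (K₀ * Real.exp (-(μ / 100 * k))) ^ 2 := by
      rw [← Real.sq_sqrt (hY0 (n₀ + k))]
      exact pow_le_pow_left₀ h3 h2 2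
    have h5 : (K₀ * Real.exp (-(μ / 100 * k))) ^ 2 = K₀ ^ 2 * Real.exp (-(μ / 50)) ^ k := by
      rw [mul_pow, ← Real.exp_nat_mul, ← Real.exp_nat_mul]
      congr 2
      push_cast
      ring
    rw [Pool.Agent.Y48.EP.L_add4 hS]
    have h6 : e (n₀ + k) ≤ K₀ ^ 2 * Real.exp (-(μ / 50)) ^ k := by
      rw [← h5]
      exact (heY _).trans h4
    calc (L n₀ * lam ^ k) ^ 2 * e (n₀ + k)
        ≤ (L n₀ * lam ^ k) ^ 2 * (K₀ ^ 2 * Real.exp (-(μ / 50)) ^ k) :=
          mul_le_mul_of_nonneg_left h6 (sq_nonneg _)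
      _ = L n₀ ^ 2 * K₀ ^ 2 * q ^ k := by
          rw [hqd, mul_pow (lam ^ 2)]
          ring
      _ ≤ L n₀ ^ 2 * K₀ ^ 2 * (1 / 2) ^ k := by
          apply mul_le_mul_of_nonneg_left _ (by positivity)
          exact pow_le_pow_left₀ hq0 hq k
  have hgeo : ∀ N : ℕ, ∑ k ∈ Finset.range N, (1 / 2 : ℝ) ^ k ≤ 2 := by
    intro N
    have := Summable.sum_le_tsum (f := fun k : ℕ => (1 / 2 : ℝ) ^ k) (Finset.range N)
      (fun k _ => by positivity) summable_geometric_two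
    rwa [tsum_geometric_two] at this
  -- the finite sums
  unfold nk
  apply Real.tsum_le_of_sum_le (fun a => sq_nonneg _)
  intro F
  obtain ⟨N, hN⟩ : ∃ N : ℕ, ∀ a ∈ F, gr g a < n₀ + N := by
    refine ⟨F.sup (gr g) + 1, fun a ha => ?_⟩
    have := Finset.le_sup (f := gr g) ha
    omega
  have hmaps : ∀ a ∈ F, gr g a ∈ Finset.range (n₀ + N) := fun a ha => Finset.mem_range.2 (hN a ha)
  rw [← Finset.sum_fiberwise_of_maps_to hmaps]
  have h7 : ∀ n ∈ Finset.range (n₀ + N),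
      ∑ a ∈ F.filter (fun a => gr g a = n), (rI L g a ^ 1 * z a t) ^ 2 ≤ L n ^ 2 * e n := by
    intro n _
    calc ∑ a ∈ F.filter (fun a => gr g a = n), (rI L g a ^ 1 * z a t) ^ 2
        = L n ^ 2 * ∑ a ∈ F.filter (fun a => gr g a = n), z a t ^ 2 := by
          rw [Finset.mul_sum]
          refine Finset.sum_congr rfl (fun a ha => ?_)
          have h8 : rI L g a = L n := by
            unfold rI
            rw [(Finset.mem_filter.1 ha).2]
          rw [h8, pow_one, mul_pow]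
      _ ≤ L n ^ 2 * e n :=
          mul_le_mul_of_nonneg_left (group_le g z t hs F n) (sq_nonneg _)
  refine (Finset.sum_le_sum h7).trans ?_
  rw [Finset.sum_range_add]
  apply add_le_add
  · exact Finset.sum_le_sum fun n _ => mul_le_mul_of_nonneg_left (he1 n) (sq_nonneg _)
  · calc ∑ k ∈ Finset.range N, L (n₀ + k) ^ 2 * e (n₀ + k)
        ≤ ∑ k ∈ Finset.range N, L n₀ ^ 2 * K₀ ^ 2 * (1 / 2) ^ k :=
          Finset.sum_le_sum (fun k _ => hgrp k)
      _ = L n₀ ^ 2 * K₀ ^ 2 * ∑ k ∈ Finset.range N, (1 / 2 : ℝ) ^ k := by rw [Finset.mul_sum]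
      _ ≤ L n₀ ^ 2 * K₀ ^ 2 * 2 := mul_le_mul_of_nonneg_left (hgeo N) (by positivity)
      _ = 2 * (L n₀ ^ 2 * K₀ ^ 2) := by ring

end groups

theorem t_BLOWA6 : S_BLOWA6 := by
  intro hWP hDYN J g σ τ κ μ lam Λ M a D₁ L C ℓ B D c hK hS hR hD ha
  obtain ⟨Q, T₁, hQ, hdyn⟩ := hDYN J g σ τ κ μ lam Λ M a D₁ L C ℓ B D c hK hS hR hD ha
  obtain ⟨z, hinit, hz⟩ := hWP J g σ τ κ μ lam Λ M a D₁ Q (3 / 2) L C ℓ B D c hK hS hR hD ha
  rcases hz with hz | ⟨T, hT, hsol, hnb⟩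
  · exfalso
    have h1 := (hdyn (|T₁| + 1) z (by positivity) (hz _) hinit).1
    have h2 := le_abs_self T₁
    linarith
  · refine ⟨Q, T, z, hQ, hT, hsol, hinit, hnb, ?_⟩
    rcases (hdyn T z hT hsol hinit).2 with h | ⟨n₀, K₀, s, hs, hn₀⟩
    · exact h
    · exfalso
      apply hnb
      have hS5 := sq5_of hS
      obtain ⟨M1, hM1⟩ := hsol.rapid 1 s hs.2
      refine ⟨max M1 (∑ n ∈ Finset.range n₀, L n ^ 2 * (3 / 2) ^ 2 +
        2 * (L n₀ ^ 2 * K₀ ^ 2)), fun t ht => ?_⟩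
      rcases le_or_gt t s with hts | hts
      · exact (hM1 t ⟨ht.1, hts⟩).2.trans (le_max_left _ _)
      · obtain ⟨e1, e2⟩ := energy_le hK hS5 hR hD ha hsol hinit ht
        exact (nk_le6 g z t hS5 e1 e2 n₀ K₀ (hn₀ t ⟨hts.le, ht.2⟩)).trans (le_max_right _ _)

end Pool.Agent.Y515.NS6
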