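import Pool.Agent.Y5.S2.Stm
import Pool.Agent.Y710.EP.PERT5
import Pool.Agent.Y5.E.Blow

/-!
Energy of the regular solutions of the full system of stage 6 (plan of helper5): it is
nonincreasing.
-/

open Set Filter Topology MeasureTheory

set_option autoImplicit false
set_option linter.all false

namespace Pool.Agent.Y515.NS6

open Pool.Agent.Y5 Pool.Agent.Y5.D Pool.Agent.Y5.E Pool.Agent.Y5.F Pool.Agent.Y5.S2
open Pool.Agent.Y6.N (lin Dm)
open Pool.Agent.Y8.EP (Sq5 Grow5)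
open Pool.Agent.Y710.EP (Nice maj L_one L_nn M_nn L_mono bl_summable tl_bl tl_self Pg Pg_le)

variable {J : Type} {g : J → ℕ} {κ μ lam Λ M : ℝ} {L C ℓ ℓ' : ℕ → ℝ} {B : ℕ → ℕ → ℝ}
  {c : Ix J → Ix J → Ix J → ℝ} {σ : J → J} {τ : J → ℝ} {a D₁ Q : ℝ} {D : Ix J → Ix J → ℝ}

/-! ### Parameters -/

/-- modified damping (for the lemmas stated for `Sq5`) -/
noncomputable def ell5 (κ μ : ℝ) (L : ℕ → ℝ) : ℕ → ℝ
  | 0 => L 0 / (10 ^ 6 * μ)
  | n + 1 => 9 / 10 * (κ ^ n * L n)

theorem kL (h : Sq6 κ μ lam Λ M L C ℓ B) (n : ℕ) : κ ^ n * L n = μ ^ n * L 0 := by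
  induction n with
  | zero => simp
  | succ n ih =>
    rw [h.L_succ, h.μ_eq]
    rw [h.μ_eq] at ih
    calc κ ^ (n + 1) * (lam * L n) = κ * lam * (κ ^ n * L n) := by ring
      _ = κ * lam * ((κ * lam) ^ n * L 0) := by rw [ih]
      _ = (κ * lam) ^ (n + 1) * L 0 := by ring

theorem sq5_of (h : Sq6 κ μ lam Λ M L C ℓ B) : Sq5 κ μ lam Λ M L C (ell5 κ μ L) B where
  κ0 := h.κ0
  κ1 := h.κ1
  κs := h.κs
  μ_eq := h.μ_eq
  μ_big := h.μ_big
  L0 := h.L0
  L_succ := h.L_succ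
  Λ_ge := h.Λ_ge
  Λ_sq := h.Λ_sq.le
  M_one := h.M_one
  exp_big := h.exp_big
  C_lo := h.C_lo
  C_hi := h.C_hi
  B_lo := h.B_lo
  B_hi := h.B_hi
  ℓ_nonneg := by
    have hμ : (0 : ℝ) < μ := lt_of_lt_of_le (by norm_num) h.μ_big
    have hL0 := h.L0
    intro n
    cases n with
    | zero =>
      show 0 ≤ L 0 / (10 ^ 6 * μ)
      positivity
    | succ n =>
      show 0 ≤ 9 / 10 * (κ ^ n * L n)
      rw [kL h]
      positivity
  ℓ_zero := by
    have hμ : (0 : ℝ) < μ := lt_of_lt_of_le (by norm_num) h.μ_big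
    show 10 ^ 6 * (L 0 / (10 ^ 6 * μ) * μ) ≤ L 0
    apply le_of_eq
    field_simp
  ℓ_succ := fun n => rfl
  ℓ_low := by
    have hμ1 : (1 : ℝ) ≤ μ := le_trans (by norm_num) h.μ_big
    have hμ : (0 : ℝ) < μ := by linarith
    have hL0 := h.L0
    refine ⟨L 0 / (10 ^ 6 * μ), by positivity, fun n => ?_⟩
    rw [pow_mul, h.Λ_sq]
    cases n with
    | zero => simp [ell5]
    | succ n =>
      show L 0 / (10 ^ 6 * μ) * μ ^ (n + 1) ≤ 9 / 10 * (κ ^ n * L n)
      rw [kL h]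
      have e : L 0 / (10 ^ 6 * μ) * μ ^ (n + 1) = 1 / 10 ^ 6 * (μ ^ n * L 0) := by
        field_simp
        ring
      rw [e]
      have : 0 ≤ μ ^ n * L 0 := by positivity
      nlinarith

/-! ### The skew term -/

theorem skew_sum (hR : Rot2 g σ τ) (Q κ : ℝ) (L : ℕ → ℝ) (z : Ix J → ℝ) :
    ∑' i, z i * Az Q κ L g σ τ z i = 0 := by
  let e : Ix J ≃ Ix J :=
    { toFun := σ2 σ
      invFun := σ2 σ
      left_inv := by
        intro i
        cases i with
        | inl n => rfl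
        | inr j => simp [σ2, hR.inv]
      right_inv := by
        intro i
        cases i with
        | inl n => rfl
        | inr j => simp [σ2, hR.inv] }
  have h1 : ∀ i, z (e i) * Az Q κ L g σ τ z (e i) = -(z i * Az Q κ L g σ τ z i) := by
    intro i
    cases i with
    | inl n =>
      show z (Sum.inl n) * 0 = -(z (Sum.inl n) * 0)
      ring
    | inr j =>
      show z (Sum.inr (σ j)) * (Om Q κ L (g (σ j) / 2) * τ (σ j) * z (Sum.inr (σ (σ j)))) =
        -(z (Sum.inr j) * (Om Q κ L (g j / 2) * τ j * z (Sum.inr (σ j))))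
      rw [hR.inv, hR.grp, hR.skew]
      ring
  have h2 : ∑' i, z i * Az Q κ L g σ τ z i = -∑' i, z i * Az Q κ L g σ τ z i := by
    conv_lhs => rw [← e.tsum_eq (fun i => z i * Az Q κ L g σ τ z i)]
    rw [← tsum_neg]
    exact tsum_congr h1
  linarith

/-! ### Groups -/

theorem gfin (hK : Ker g Λ M L C B c) (n : ℕ) : {i : Ix J | gr g i = n}.Finite := by
  refine (((Set.finite_singleton (Sum.inl n : Ix J))).union ((hK.fin n).image Sum.inr)).subset ?_
  rintro (m | j) h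
  · left
    have : m = n := h
    rw [this]
    rfl
  · right
    exact ⟨j, h, rfl⟩

theorem lin_grp (hD : Dis2 g a D₁ κ L ℓ D) (z : Ix J → ℝ) (i : Ix J) :
    lin D (Pg g (gr g i) z) i = lin D z i := by
  unfold lin
  refine tsum_congr fun b => ?_
  unfold Pg
  by_cases h : gr g b = gr g i
  · rw [if_pos h]
  · rw [if_neg h]
    have : D i b = 0 := by
      by_contra h1
      exact h (hD.blk i b h1).symm
    rw [this]
    ring

theorem pair_sum (hK : Ker g Λ M L C B c) (D : Ix J → Ix J → ℝ) (n : ℕ) {α β : Ix J → ℝ}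
    (hα : ∀ i, gr g i ≠ n → α i = 0) (hβ : ∀ i, gr g i ≠ n → β i = 0) :
    ∑' p : Ix J × Ix J, D p.1 p.2 * α p.1 * β p.2 =
      ∑ i ∈ (gfin hK n).toFinset, α i * lin D β i := by
  classical
  have hmem : ∀ i, i ∉ (gfin hK n).toFinset → gr g i ≠ n := by
    intro i hi h
    exact hi ((Set.Finite.mem_toFinset _).2 h)
  rw [tsum_eq_sum (s := (gfin hK n).toFinset ×ˢ (gfin hK n).toFinset)]
  · rw [Finset.sum_product]
    refine Finset.sum_congr rfl fun i _ => ?_
    unfold lin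
    rw [tsum_eq_sum (s := (gfin hK n).toFinset)]
    · rw [Finset.mul_sum]
      exact Finset.sum_congr rfl fun b _ => by ring
    · intro b hb
      rw [hβ b (hmem b hb), mul_zero]
  · rintro ⟨i, b⟩ hp
    rw [Finset.mem_product, not_and_or] at hp
    rcases hp with hp | hp
    · rw [hα i (hmem i hp)]
      ring
    · rw [hβ b (hmem b hp), mul_zero]

theorem Pg_zero (n : ℕ) (z : Ix J → ℝ) : ∀ i, gr g i ≠ n → Pg g n z i = 0 :=
  fun i hi => if_neg hi

theorem lin_le (hK : Ker g Λ M L C B c) (hD : Dis2 g a D₁ κ L ℓ D) (z : Ix J → ℝ) (i : Ix J) :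
    |lin D z i| ≤ D₁ * (κ ^ gr g i * L (gr g i)) * √(∑' b, Pg g (gr g i) z b ^ 2) := by
  classical
  have h1 := hD.up (gr g i) (Pi.single i 1) (Pg g (gr g i) z)
    (fun b hb => Pi.single_eq_of_ne (fun h => hb (by rw [h])) _) (Pg_zero _ _)
  rw [pair_sum hK D (gr g i) (fun b hb => Pi.single_eq_of_ne (fun h => hb (by rw [h])) _)
    (Pg_zero _ _), Pool.Agent.Y710.EP.nm_single, Real.sqrt_one, mul_one] at h1
  rw [Finset.sum_eq_single i] at h1
  · rw [Pi.single_eq_same, one_mul, lin_grp hD] at h1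
    exact h1
  · intro b _ hb
    rw [Pi.single_eq_of_ne hb, zero_mul]
  · intro hi
    exact absurd ((Set.Finite.mem_toFinset (gfin hK (gr g i))).2 rfl) hi

theorem lin_nonneg (hK : Ker g Λ M L C B c) (hs : Sq5 κ μ lam Λ M L C ℓ' B)
    (hD : Dis2 g a D₁ κ L ℓ D) (ha : 0 < a) (z : Ix J → ℝ)
    (hsum : Summable (fun i => z i * lin D z i)) : 0 ≤ ∑' i, z i * lin D z i := by
  have h := (hsum.hasSum).tsum_fiberwise (gr g)
  rw [← h.tsum_eq]
  refine tsum_nonneg fun n => ?_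
  rw [tsum_subtype (gr g ⁻¹' {n}) (fun i => z i * lin D z i),
    tsum_eq_sum (s := (gfin hK n).toFinset)]
  · have h1 := hD.low n (Pg g n z) (Pg_zero _ _)
    rw [pair_sum hK D n (Pg_zero _ _) (Pg_zero _ _)] at h1
    have h2 : ∑ i ∈ (gfin hK n).toFinset, (gr g ⁻¹' {n}).indicator (fun i => z i * lin D z i) i =
        ∑ i ∈ (gfin hK n).toFinset, Pg g n z i * lin D (Pg g n z) i := by
      refine Finset.sum_congr rfl fun i hi => ?_
      have hi' : gr g i = n := (Set.Finite.mem_toFinset (gfin hK n)).1 hi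
      rw [Set.indicator_of_mem (by exact hi')]
      have e1 : Pg g n z i = z i := if_pos hi'
      have e2 := lin_grp hD z i
      rw [hi'] at e2
      rw [e1, e2]
    rw [h2]
    refine le_trans ?_ h1
    have h3 := (Pool.Agent.Y710.EP.κp hs n).1
    have h4 := L_nn hs n
    have h5 : 0 ≤ ∑' i, Pg g n z i ^ 2 := tsum_nonneg fun i => sq_nonneg _
    positivity
  · intro i hi
    refine Set.indicator_of_notMem (fun h1 => hi ?_) _
    exact (Set.Finite.mem_toFinset _).2 h1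

/-! ### The derivative of the energy -/

theorem energy_deriv (hK : Ker g Λ M L C B c) (hs : Sq5 κ μ lam Λ M L C ℓ' B)
    (hR : Rot2 g σ τ) (hD : Dis2 g a D₁ κ L ℓ D) (ha : 0 < a) {T : ℝ} {z : Ix J → ℝ → ℝ}
    (hz : NSol2 Q κ L g σ τ D c T z) {t : ℝ} (ht : t ∈ Ico 0 T) :
    ∃ D', HasDerivWithinAt (fun s => ∑' i, z i s ^ 2) D' (Ico 0 T) t ∧ D' ≤ 0 := by
  obtain ⟨T', hT1, hT2⟩ : ∃ T', t < T' ∧ T' < T :=
    ⟨(t + T) / 2, by linarith [ht.2], by linarith [ht.2]⟩
  obtain ⟨Z, hZ0, hZn, hZb⟩ := maj hK hs hT2 hz.rapid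
  have hZn' : Summable (fun a => L (gr g a) * Z a) :=
    Summable.congr hZn fun a => by rw [abs_of_nonneg (hZ0 a)]
  have hZs : Summable Z := (hZn.sum1 hs).congr fun a => abs_of_nonneg (hZ0 a)
  set E := ∑' a, Z a with hE
  have hE0 : 0 ≤ E := tsum_nonneg hZ0
  have hZE : ∀ a, Z a ≤ E := fun a => hZs.le_tsum a fun b _ => hZ0 b
  have hsubI : Ico 0 T' ⊆ Icc 0 T' := Ico_subset_Icc_self
  have hsub : Ico 0 T' ⊆ Ico 0 T := Ico_subset_Ico_right hT2.le
  have hnice : ∀ s ∈ Icc 0 T', Nice g L (fun a => z a s) := fun s hτ =>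
    hZn.mono hs fun a => by rw [abs_of_nonneg (hZ0 a)]; exact hZb s hτ a
  have hM := M_nn hs
  have hbl : ∀ s ∈ Icc 0 T', ∀ a, |bl c (fun b => z b s) (fun b => z b s) a| ≤
      M * L (gr g a) * (E * E) := by
    intro s hτ a
    refine (bl_summable hK hs (hnice s hτ) (hnice s hτ) a).2.trans ?_
    have h1 : ∑' b, |z b s| ≤ E := ((hnice s hτ).sum1 hs).tsum_le_tsum (fun b => hZb s hτ b) hZs
    have h2 : 0 ≤ ∑' b, |z b s| := tsum_nonneg fun b => abs_nonneg _
    have h3 := L_nn hs (gr g a)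
    gcongr
  have hAz : ∀ s ∈ Icc 0 T', ∀ i, |Az Q κ L g σ τ (fun b => z b s) i| ≤
      |Q| * L (gr g i) * E := by
    intro s hτ i
    cases i with
    | inl n =>
      show |(0 : ℝ)| ≤ |Q| * L n * E
      rw [abs_zero]
      have h3 := L_nn hs n
      positivity
    | inr j =>
      show |Om Q κ L (g j / 2) * τ j * z (Sum.inr (σ j)) s| ≤ |Q| * L (g j) * E
      have h1 : |τ j| = 1 := by
        have h2 := hR.unit j
        have h3 : |τ j| ^ 2 = 1 := by rw [sq_abs, h2]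
        nlinarith [abs_nonneg (τ j)]
      have h2 : |Om Q κ L (g j / 2)| ≤ |Q| * L (g j) := by
        unfold Om
        rw [abs_mul]
        refine mul_le_mul_of_nonneg_left ?_ (abs_nonneg _)
        obtain ⟨k1, k2⟩ := Pool.Agent.Y710.EP.κp hs (2 * (g j / 2))
        have k3 := L_nn hs (2 * (g j / 2))
        rw [abs_of_nonneg (mul_nonneg k1 k3)]
        have k4 := L_mono hs (show 2 * (g j / 2) ≤ g j by omega)
        exact (mul_le_of_le_one_left k3 k2).trans k4
      rw [abs_mul, abs_mul, h1, mul_one]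
      have h3 := L_nn hs (g j)
      exact mul_le_mul h2 ((hZb s hτ _).trans (hZE _)) (abs_nonneg _) (by positivity)
  have hsqE : ∀ s ∈ Icc 0 T', ∀ n, √(∑' b, Pg g n (fun b => z b s) b ^ 2) ≤ E := by
    intro s hτ n
    rw [Real.sqrt_le_left hE0]
    have k1 : Summable (fun b => Z b * E) := hZs.mul_right E
    have k2 : ∀ b, Pg g n (fun b => z b s) b ^ 2 ≤ Z b * E := by
      intro b
      rw [← sq_abs, sq]
      have h1 := (Pg_le (g := g) n (fun b => z b s) b).trans (hZb s hτ b)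
      exact mul_le_mul h1 (h1.trans (hZE b)) (abs_nonneg _) (hZ0 b)
    have k3 : Summable (fun b => Pg g n (fun b => z b s) b ^ 2) :=
      Summable.of_nonneg_of_le (fun b => sq_nonneg _) k2 k1
    calc ∑' b, Pg g n (fun b => z b s) b ^ 2 ≤ ∑' b, Z b * E := k3.tsum_le_tsum k2 k1
      _ = E ^ 2 := by rw [tsum_mul_right, ← hE, sq]
  have hlin : ∀ s ∈ Icc 0 T', ∀ i, |lin D (fun b => z b s) i| ≤ |D₁| * L (gr g i) * E := by
    intro s hτ i
    refine (lin_le hK hD (fun b => z b s) i).trans ?_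
    obtain ⟨k1, k2⟩ := Pool.Agent.Y710.EP.κp hs (gr g i)
    have k3 := L_nn hs (gr g i)
    have k4 : κ ^ gr g i * L (gr g i) ≤ L (gr g i) := mul_le_of_le_one_left k3 k2
    have k5 : D₁ * (κ ^ gr g i * L (gr g i)) ≤ |D₁| * L (gr g i) :=
      mul_le_mul (le_abs_self _) k4 (mul_nonneg k1 k3) (abs_nonneg _)
    exact mul_le_mul k5 (hsqE s hτ _) (Real.sqrt_nonneg _) (by positivity)
  set K := |Q| * E + |D₁| * E + M * (E * E) with hKd
  have hterm : ∀ s ∈ Icc 0 T', ∀ i, |z i s * (Az Q κ L g σ τ (fun b => z b s) i -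
      lin D (fun b => z b s) i + bl c (fun b => z b s) (fun b => z b s) i)| ≤
      K * (L (gr g i) * Z i) := by
    intro s hτ i
    rw [abs_mul]
    have h1 : |Az Q κ L g σ τ (fun b => z b s) i -
      lin D (fun b => z b s) i + bl c (fun b => z b s) (fun b => z b s) i| ≤
      |Q| * L (gr g i) * E + |D₁| * L (gr g i) * E + M * L (gr g i) * (E * E) := by
      refine (abs_add_le _ _).trans (add_le_add ((abs_sub _ _).trans ?_) (hbl s hτ i))
      exact add_le_add (hAz s hτ i) (hlin s hτ i)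
    calc |z i s| * |Az Q κ L g σ τ (fun b => z b s) i -
      lin D (fun b => z b s) i + bl c (fun b => z b s) (fun b => z b s) i|
        ≤ Z i * (|Q| * L (gr g i) * E + |D₁| * L (gr g i) * E + M * L (gr g i) * (E * E)) :=
          mul_le_mul (hZb s hτ i) h1 (abs_nonneg _) (hZ0 i)
      _ = _ := by rw [hKd]; ring
  have hpart : ∀ (f : Ix J → ℝ) (K' : ℝ), (∀ i, |f i| ≤ K' * L (gr g i)) →
      Summable (fun i => z i t * f i) := by
    intro f K' hf
    refine Summable.of_norm_bounded (hZn'.mul_left K') fun i => ?_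
    rw [norm_mul, Real.norm_eq_abs, Real.norm_eq_abs]
    calc |z i t| * |f i| ≤ Z i * (K' * L (gr g i)) :=
          mul_le_mul (hZb t ⟨ht.1, hT1.le⟩ i) (hf i) (abs_nonneg _) (hZ0 i)
      _ = _ := by ring
  have htI : t ∈ Icc 0 T' := ⟨ht.1, hT1.le⟩
  have htn := hnice t htI
  have s1 : Summable (fun i => z i t * Az Q κ L g σ τ (fun b => z b t) i) :=
    hpart _ (|Q| * E) fun i => (hAz t htI i).trans (le_of_eq (by ring))
  have s2 : Summable (fun i => z i t * lin D (fun b => z b t) i) :=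
    hpart _ (|D₁| * E) fun i => (hlin t htI i).trans (le_of_eq (by ring))
  obtain ⟨k1, k2⟩ := tl_bl hK hs htn htn htn
  have hmain := Pool.Agent.Y494.ND.hasDerivWithinAt_tsum' (I := Ix J) (S := Ico 0 T')
    (convex_Ico 0 T')
    (f := fun i s => z i s ^ 2)
    (f' := fun i s => 2 * (z i s * (Az Q κ L g σ τ (fun b => z b s) i -
      lin D (fun b => z b s) i + bl c (fun b => z b s) (fun b => z b s) i)))
    (u := fun i => 2 * (K * (L (gr g i) * Z i)))
    ((hZn'.mul_left _).mul_left _) (by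
      intro i s hτ
      have h1 := ((hz.deriv i s (hsub hτ)).mono hsub).pow 2
      refine h1.congr_deriv ?_
      norm_num
      ring) (by
      intro i s hτ
      rw [abs_mul, abs_two]
      exact mul_le_mul_of_nonneg_left (hterm s (hsubI hτ) i) zero_le_two) (by
      intro s hτ
      exact (hnice s (hsubI hτ)).sq hs) (t := t) ⟨ht.1, hT1⟩
  refine ⟨_, hmain.mono_of_mem_nhdsWithin ?_, ?_⟩
  · have h7 : Ico 0 T ∩ Iio T' ∈ 𝓝[Ico 0 T] t :=
      inter_mem_nhdsWithin _ (Iio_mem_nhds hT1)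
    refine mem_of_superset h7 ?_
    rintro s ⟨hs1, hs2⟩
    exact ⟨hs1.1, hs2⟩
  · have e : ∀ i, z i t * (Az Q κ L g σ τ (fun b => z b t) i -
        lin D (fun b => z b t) i + bl c (fun b => z b t) (fun b => z b t) i) =
        (z i t * Az Q κ L g σ τ (fun b => z b t) i - z i t * lin D (fun b => z b t) i) +
          z i t * bl c (fun b => z b t) (fun b => z b t) i := fun i => by ring
    rw [tsum_mul_left, tsum_congr e, Summable.tsum_add (s1.sub s2) k1, Summable.tsum_sub s1 s2,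
      skew_sum hR Q κ L (fun b => z b t), k2, tl_self hK]
    have h9 := lin_nonneg hK hs hD ha (fun b => z b t) s2
    linarith

/-- The energy is nonincreasing. -/
theorem energy_anti (hK : Ker g Λ M L C B c) (hs : Sq5 κ μ lam Λ M L C ℓ' B)
    (hR : Rot2 g σ τ) (hD : Dis2 g a D₁ κ L ℓ D) (ha : 0 < a) {T : ℝ} {z : Ix J → ℝ → ℝ}
    (hz : NSol2 Q κ L g σ τ D c T z) : AntitoneOn (fun s => ∑' i, z i s ^ 2) (Ico 0 T) := by
  have h := fun t (ht : t ∈ Ico 0 T) => energy_deriv hK hs hR hD ha hz ht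
  choose! D' hD' hD0 using h
  refine antitoneOn_of_hasDerivWithinAt_nonpos (convex_Ico 0 T) (f' := D')
    (fun t ht => (hD' t ht).continuousWithinAt) (fun t ht => ?_) (fun t ht => ?_)
  · exact (hD' t (interior_subset ht)).mono interior_subset
  · exact hD0 t (interior_subset ht)

theorem energy_le (hK : Ker g Λ M L C B c) (hs : Sq5 κ μ lam Λ M L C ℓ' B)
    (hR : Rot2 g σ τ) (hD : Dis2 g a D₁ κ L ℓ D) (ha : 0 < a) {T A : ℝ} {z : Ix J → ℝ → ℝ}
    (hz : NSol2 Q κ L g σ τ D c T z) (hi : Init2 A z) {t : ℝ} (ht : t ∈ Ico 0 T) :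
    Summable (fun i => z i t ^ 2) ∧ ∑' i, z i t ^ 2 ≤ A ^ 2 := by
  refine ⟨(Pool.Agent.Y710.EP.nice_at hK hs hz.rapid ht).sq hs, ?_⟩
  have h0 : (0 : ℝ) ∈ Ico 0 T := ⟨le_rfl, lt_of_le_of_lt ht.1 ht.2⟩
  have h1 := energy_anti hK hs hR hD ha hz h0 ht ht.1
  refine h1.trans (le_of_eq ?_)
  show ∑' i, z i 0 ^ 2 = A ^ 2
  rw [tsum_eq_single (Sum.inl 0), hi.1]
  intro i hne
  rcases i with n | w
  · cases n with
    | zero => exact absurd rfl hne
    | succ n =>
      rw [hi.2.1]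
      norm_num
  · rw [hi.2.2]
    norm_num

end Pool.Agent.Y515.NS6
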